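import Mathlib

/-!
# Counting integers of low multiplicative rank
-/

set_option autoImplicit false

namespace Pool.Agent.Y925.PE

open Module Finset

/-- few coordinates separate the points of a finite dimensional space of finitely supported
functions -/
theorem few_coords {ι : Type} (r : ℕ) : ∀ (M : Submodule ℚ (ι →₀ ℚ)) [FiniteDimensional ℚ M],
    finrank ℚ M ≤ r → ∃ P : Finset ι, P.card ≤ r ∧ ∀ m ∈ M, (∀ p ∈ P, m p = 0) → m = 0 := by
  classical
  induction r with
  | zero =>
    intro M _ h
    refine ⟨∅, by simp, fun m hm _ => ?_⟩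
    have h0 : finrank ℚ M = 0 := by omega
    rw [Submodule.finrank_eq_zero] at h0
    rw [h0] at hm
    simpa using hm
  | succ r ih =>
    intro M _ h
    by_cases hM : M = ⊥
    · refine ⟨∅, by simp, fun m hm _ => ?_⟩
      rw [hM] at hm
      simpa using hm
    · obtain ⟨m0, hm0, hne⟩ := Submodule.exists_mem_ne_zero_of_ne_bot hM
      obtain ⟨p, hp⟩ : ∃ p, m0 p ≠ 0 := by
        by_contra hcon
        push Not at hcon
        exact hne (Finsupp.ext hcon)
      let M' : Submodule ℚ (ι →₀ ℚ) := M ⊓ LinearMap.ker (Finsupp.lapply p : (ι →₀ ℚ) →ₗ[ℚ] ℚ)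
      have hle : M' ≤ M := inf_le_left
      haveI : FiniteDimensional ℚ M' := Submodule.finiteDimensional_of_le hle
      have hlt : M' < M := by
        refine lt_of_le_of_ne hle fun heq => hp ?_
        have : m0 ∈ M' := by rw [heq]; exact hm0
        exact (Submodule.mem_inf.1 this).2
      have h2 : finrank ℚ M' < finrank ℚ M := Submodule.finrank_lt_finrank_of_lt hlt
      obtain ⟨P, hP, hP'⟩ := ih M' (by omega)
      refine ⟨insert p P, (Finset.card_insert_le _ _).trans (by omega), fun m hm hz => ?_⟩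
      refine hP' m (Submodule.mem_inf.2 ⟨hm, hz p (Finset.mem_insert_self _ _)⟩)
        fun q hq => hz q (Finset.mem_insert_of_mem hq)

/-- the exponents of `k` as a rational vector indexed by the primes -/
noncomputable def vec (k : ℕ) : Nat.Primes →₀ ℚ :=
  (k.factorization.comapDomain (fun p : Nat.Primes => (p : ℕ))
    (Subtype.val_injective.injOn)).mapRange (fun n : ℕ => (n : ℚ)) (by simp)

theorem vec_apply (k : ℕ) (p : Nat.Primes) : vec k p = (k.factorization p : ℚ) := by
  simp [vec]

theorem vec_inj {k k' : ℕ} (hk : k ≠ 0) (hk' : k' ≠ 0) (h : vec k = vec k') : k = k' := by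
  apply Nat.eq_of_factorization_eq hk hk'
  intro p
  by_cases hp : p.Prime
  · have e1 := vec_apply k ⟨p, hp⟩
    have e2 := vec_apply k' ⟨p, hp⟩
    rw [h, e2] at e1
    have e3 : (k'.factorization p : ℚ) = (k.factorization p : ℚ) := e1
    exact_mod_cast e3.symm
  · rw [Nat.factorization_eq_zero_of_not_prime _ hp, Nat.factorization_eq_zero_of_not_prime _ hp]

/-- a set of positive integers up to `x` whose exponent vectors differ by elements of a space
of dimension at most `R` has at most `(1 + log₂ x) ^ R` elements -/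
theorem card_le_of_rank (x R : ℕ) (S : Finset ℕ) (hS : ∀ k ∈ S, 1 ≤ k ∧ k ≤ x)
    (M : Submodule ℚ (Nat.Primes →₀ ℚ)) [FiniteDimensional ℚ M] (hM : finrank ℚ M ≤ R)
    (hd : ∀ k ∈ S, ∀ k' ∈ S, vec k - vec k' ∈ M) : S.card ≤ (1 + Nat.log 2 x) ^ R := by
  classical
  obtain ⟨P, hP, hP'⟩ := few_coords R M hM
  have h1 : S.card ≤ Fintype.card (P → Fin (1 + Nat.log 2 x)) := by
    have hb : ∀ k ∈ S, ∀ p : P, k.factorization (p : Nat.Primes) < 1 + Nat.log 2 x := by
      intro k hk p
      have hk1 := hS k hk
      have h2 : ((p : Nat.Primes) : ℕ) ^ (k.factorization (p : Nat.Primes)) ≤ k :=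
        Nat.le_of_dvd (by omega) (Nat.ordProj_dvd _ _)
      have h3 : 2 ^ (k.factorization (p : Nat.Primes)) ≤ x :=
        ((Nat.pow_le_pow_left (p : Nat.Primes).2.two_le _).trans h2).trans hk1.2
      have h4 := Nat.le_log_of_pow_le (by norm_num : 1 < 2) h3
      omega
    let f : S → (P → Fin (1 + Nat.log 2 x)) := fun k p => ⟨k.1.factorization (p : Nat.Primes),
      hb k.1 k.2 p⟩
    have hf : Function.Injective f := by
      intro k k' hkk
      apply Subtype.ext
      apply vec_inj (by have := hS k.1 k.2; omega) (by have := hS k'.1 k'.2; omega)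
      rw [← sub_eq_zero]
      apply hP' _ (hd k.1 k.2 k'.1 k'.2)
      intro p hp
      have h5 := congrFun hkk ⟨p, hp⟩
      simp only [f, Fin.mk.injEq] at h5
      rw [Finsupp.sub_apply, vec_apply, vec_apply, h5, sub_self]
    have := Fintype.card_le_of_injective f hf
    simpa using this
  rw [Fintype.card_fun, Fintype.card_fin, Fintype.card_coe] at h1
  exact h1.trans (Nat.pow_le_pow_right (by omega) hP)

/-- the same when at most `R` elements of `S` have linearly independent exponent vectors -/
theorem card_le_of_indep (x R : ℕ) (S : Finset ℕ) (hS : ∀ k ∈ S, 1 ≤ k ∧ k ≤ x)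
    (hR : ∀ (N : ℕ) (k : Fin N → ℕ), (∀ j, k j ∈ S) → LinearIndependent ℚ (fun j => vec (k j)) →
      N ≤ R) : S.card ≤ (1 + Nat.log 2 x) ^ R := by
  classical
  let M : Submodule ℚ (Nat.Primes →₀ ℚ) := Submodule.span ℚ (vec '' (S : Set ℕ))
  haveI : FiniteDimensional ℚ M :=
    FiniteDimensional.span_of_finite ℚ ((S : Set ℕ).toFinite.image vec)
  refine card_le_of_rank x R S hS M ?_ fun k hk k' hk' =>
    M.sub_mem (Submodule.subset_span ⟨k, hk, rfl⟩) (Submodule.subset_span ⟨k', hk', rfl⟩)
  obtain ⟨b, hb, hspan, hli⟩ := exists_linearIndependent ℚ (vec '' (S : Set ℕ))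
  have hbfin : b.Finite := ((S : Set ℕ).toFinite.image vec).subset hb
  haveI : Fintype b := hbfin.fintype
  have h1 : finrank ℚ M = Fintype.card b := by
    change finrank ℚ (Submodule.span ℚ (vec '' (S : Set ℕ))) = _
    rw [← hspan]
    have := finrank_span_eq_card hli
    rwa [Subtype.range_coe] at this
  rw [h1]
  let e := Fintype.equivFin b
  choose g hg hgv using fun u : b => hb u.2
  refine hR (Fintype.card b) (fun j => g (e.symm j)) (fun j => hg _) ?_
  have h2 : (fun j => vec (g (e.symm j))) = (fun j => ((e.symm j : b) : Nat.Primes →₀ ℚ)) := by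
    funext j
    exact hgv _
  rw [h2]
  exact hli.comp e.symm e.symm.injective

end Pool.Agent.Y925.PE
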