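import Pool.Agent.W254.HP.Opt

/-!
# Multiples of logarithms by elements of a finite dimensional space

`V` is a finite dimensional space over the algebraic numbers containing `1`. If `l j` are linearly
independent logarithms of algebraic numbers and `v j * l j + v' j` is a linear form in `1` and
logarithms for some `v j`, `v' j` in `V`, `v j` transcendental, then there are at most
`dim V * (dim V - 1)` indices `j`.
-/

set_option autoImplicit false

namespace Pool.Agent.Y925.PE

open Module Finset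
open Pool.Agent.H301R2.SSE (QB mem_QB Lt Lt_rep Lt_mul Lt_alg Lt_log)

theorem gen (V : Submodule QB ℂ) [FiniteDimensional QB V] (h1V : (1 : ℂ) ∈ V) {N : ℕ}
    (l : Fin N → ℂ) (hl : ∀ j, IsAlgebraic ℚ (Complex.exp (l j))) (hli : LinearIndependent ℚ l)
    (v v' : Fin N → ℂ) (hv : ∀ j, v j ∈ V) (hv' : ∀ j, v' j ∈ V)
    (hvt : ∀ j, ¬ IsAlgebraic ℚ (v j)) (hw : ∀ j, v j * l j + v' j ∈ Lt) :
    N ≤ finrank QB V * (finrank QB V - 1) := by
  classical
  set d := finrank QB V with hd
  let b : Basis (Fin d) QB V := Module.finBasis QB V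
  let x : Fin d → ℂ := fun i => ((b i : V) : ℂ)
  have hx : LinearIndependent QB x :=
    b.linearIndependent.map' V.subtype V.ker_subtype
  have hexp : ∀ u : V, ((u : V) : ℂ) = ∑ i, ((b.repr u i : QB) : ℂ) * x i := by
    intro u
    conv_lhs => rw [← b.sum_repr u]
    rw [AddSubmonoidClass.coe_finset_sum]
    refine Finset.sum_congr rfl fun i _ => ?_
    rw [Submodule.coe_smul, Algebra.smul_def]
    rfl
  let β : Fin d → Fin N → QB := fun i j => b.repr ⟨v j, hv j⟩ i
  let γ : Fin d → Fin N → QB := fun i j => b.repr ⟨v' j, hv' j⟩ i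
  let ε : Fin d → QB := fun i => b.repr ⟨1, h1V⟩ i
  have hvβ : ∀ j, v j = ∑ i, (β i j : ℂ) * x i := fun j => hexp ⟨v j, hv j⟩
  have hvγ : ∀ j, v' j = ∑ i, (γ i j : ℂ) * x i := fun j => hexp ⟨v' j, hv' j⟩
  have h1ε : (1 : ℂ) = ∑ i, (ε i : ℂ) * x i := hexp ⟨1, h1V⟩
  let w : Fin N → ℂ := fun j => v j * l j + v' j
  let a : Fin d → Fin N → ℂ := fun i j => (β i j : ℂ) * l j + (γ i j : ℂ) - (ε i : ℂ) * w j
  refine Pool.Agent.W254.HP.hyperplane d N x a hx ?_ ?_ ?_
  · intro i j
    refine Lt.sub_mem (Lt.add_mem (Lt_mul (mem_QB.1 (β i j).2) (Lt_log (hl j)))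
      (Lt_alg (mem_QB.1 (γ i j).2))) (Lt_mul (mem_QB.1 (ε i).2) (hw j))
  · intro j
    have e1 : ∑ i, x i * a i j = (∑ i, (β i j : ℂ) * x i) * l j + ∑ i, (γ i j : ℂ) * x i -
        (∑ i, (ε i : ℂ) * x i) * w j := by
      rw [Finset.sum_mul, Finset.sum_mul, ← Finset.sum_add_distrib, ← Finset.sum_sub_distrib]
      refine Finset.sum_congr rfl fun i _ => ?_
      simp only [a]
      ring
    rw [e1, ← hvβ, ← hvγ, ← h1ε, one_mul]
    simp only [w]
    ring
  · rw [Fintype.linearIndependent_iff]
    intro c hc j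
    by_contra hcj
    -- there is `i0` with `ε i0 ≠ 0`
    obtain ⟨i0, hi0⟩ : ∃ i0, ε i0 ≠ 0 := by
      by_contra hcon
      push Not at hcon
      rw [Finset.sum_eq_zero (fun i _ => by rw [hcon i]; simp)] at h1ε
      exact one_ne_zero h1ε
    have hrow : ∀ i, ∑ j, (c j : ℂ) * ((β i j : ℂ) * l j + (γ i j : ℂ)) =
        (ε i : ℂ) * ∑ j, (c j : ℂ) * w j := by
      intro i
      have h2 := congrFun hc i
      rw [Finset.sum_apply, Pi.zero_apply] at h2
      have h3 : ∑ j, (c j : ℂ) * a i j = 0 := by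
        rw [← h2]
        refine Finset.sum_congr rfl fun j _ => ?_
        rw [Pi.smul_apply, Algebra.smul_def]
        rfl
      rw [Finset.mul_sum, ← sub_eq_zero, ← h3, ← Finset.sum_sub_distrib]
      refine Finset.sum_congr rfl fun j _ => ?_
      simp only [a]
      ring
    have hB := Pool.Agent.W254.HP.opt_indep l hl hli
    have key : ∀ i, c j * (ε i0 * β i j - ε i * β i0 j) = 0 := by
      intro i
      have h4 : (∑ j, ((c j : ℂ) * (γ i j * ε i0 - γ i0 j * ε i : ℂ))) * 1 +
          ∑ j, ((c j : ℂ) * (ε i0 * β i j - ε i * β i0 j : ℂ)) * l j = 0 := by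
        have h5 := hrow i
        have h6 := hrow i0
        have h7 : (ε i0 : ℂ) * ∑ j, (c j : ℂ) * ((β i j : ℂ) * l j + (γ i j : ℂ)) -
            (ε i : ℂ) * ∑ j, (c j : ℂ) * ((β i0 j : ℂ) * l j + (γ i0 j : ℂ)) = 0 := by
          rw [h5, h6]; ring
        rw [← h7, mul_one, Finset.mul_sum, Finset.mul_sum, ← Finset.sum_add_distrib,
          ← Finset.sum_sub_distrib]
        refine Finset.sum_congr rfl fun j _ => ?_
        ring
      have h8 := Fintype.linearIndependent_iff.1 hB
        (fun o => o.elim (∑ j, c j * (γ i j * ε i0 - γ i0 j * ε i))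
          (fun j => c j * (ε i0 * β i j - ε i * β i0 j))) (by
        rw [Fintype.sum_option]
        simp only [Option.elim_none, Option.elim_some, Algebra.smul_def]
        rw [← h4]
        congr 1
        · congr 1
          change ((∑ j, c j * (γ i j * ε i0 - γ i0 j * ε i) : QB) : ℂ) = _
          push_cast
          rfl) (some j)
      simpa using h8
    have key2 : ∀ i, β i j = β i0 j / ε i0 * ε i := by
      intro i
      have h9 := (mul_eq_zero.1 (key i)).resolve_left hcj
      field_simp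
      linear_combination h9
    apply hvt j
    have h10 : v j = ((β i0 j / ε i0 : QB) : ℂ) := by
      rw [hvβ j]
      have : ∑ i, (β i j : ℂ) * x i = ((β i0 j / ε i0 : QB) : ℂ) * ∑ i, (ε i : ℂ) * x i := by
        rw [Finset.mul_sum]
        refine Finset.sum_congr rfl fun i _ => ?_
        rw [key2 i]
        push_cast
        ring
      rw [this, ← h1ε, mul_one]
    rw [h10]
    exact mem_QB.1 (β i0 j / ε i0).2

end Pool.Agent.Y925.PE
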