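import Pool.Agent.Y925.PE.Gen
import Pool.Agent.Y925.PE.Count

/-!
# Independence of exponent vectors and of logarithms
-/

set_option autoImplicit false

namespace Pool.Agent.Y925.PE

open Module Finset

theorem vec_mul {a b : ℕ} (ha : a ≠ 0) (hb : b ≠ 0) : vec (a * b) = vec a + vec b := by
  refine Finsupp.ext fun p => ?_
  rw [Finsupp.add_apply, vec_apply, vec_apply, vec_apply, Nat.factorization_mul ha hb,
    Finsupp.add_apply]
  push_cast
  rfl

theorem vec_one : vec 1 = 0 := by
  refine Finsupp.ext fun p => ?_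
  rw [vec_apply]
  simp

theorem vec_prime (p : Nat.Primes) : vec (p : ℕ) = Finsupp.single p 1 := by
  classical
  refine Finsupp.ext fun q => ?_
  rw [vec_apply, Nat.Prime.factorization p.2, Finsupp.single_apply, Finsupp.single_apply]
  by_cases h : p = q
  · rw [if_pos h, if_pos (congrArg _ h)]
    norm_num
  · rw [if_neg h, if_neg (fun h' => h (Subtype.ext h'))]
    norm_num

/-- the linear map which sends the exponent vector to the logarithm -/
noncomputable def lin : (Nat.Primes →₀ ℚ) →ₗ[ℚ] ℂ :=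
  Finsupp.linearCombination ℚ (fun p : Nat.Primes => (Real.log ((p : ℕ) : ℝ) : ℂ))

theorem lin_ker : LinearMap.ker lin = ⊥ :=
  LinearMap.ker_eq_bot.2 Pool.Agent.W254.HP.log_primes_indep

/-- the logarithm of a positive integer from its exponent vector -/
theorem lin_vec {k : ℕ} (hk : k ≠ 0) : lin (vec k) = ((Real.log (k : ℝ) : ℝ) : ℂ) := by
  induction k using Nat.recOnMul with
  | zero => exact absurd rfl hk
  | one => rw [vec_one, map_zero]; simp
  | prime p hp =>
    obtain ⟨q, rfl⟩ : ∃ q : Nat.Primes, (q : ℕ) = p := ⟨⟨p, hp⟩, rfl⟩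
    rw [vec_prime, lin, Finsupp.linearCombination_single, one_smul]
  | mul a b iha ihb =>
    have ha : a ≠ 0 := left_ne_zero_of_mul hk
    have hb : b ≠ 0 := right_ne_zero_of_mul hk
    rw [vec_mul ha hb, map_add, iha ha, ihb hb, ← Complex.ofReal_add,
      ← Real.log_mul (by exact_mod_cast ha) (by exact_mod_cast hb), Nat.cast_mul]

theorem log_indep {N : ℕ} (k : Fin N → ℕ) (hk : ∀ j, k j ≠ 0)
    (h : LinearIndependent ℚ (fun j => vec (k j))) :
    LinearIndependent ℚ (fun j => ((Real.log (k j : ℝ) : ℝ) : ℂ)) := by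
  have h1 : (fun j => ((Real.log (k j : ℝ) : ℝ) : ℂ)) = lin ∘ (fun j => vec (k j)) := by
    funext j
    exact (lin_vec (hk j)).symm
  rw [h1]
  exact h.map' _ lin_ker

theorem log_alg {k : ℕ} (hk : k ≠ 0) :
    IsAlgebraic ℚ (Complex.exp ((Real.log (k : ℝ) : ℝ) : ℂ)) := by
  rw [← Complex.ofReal_exp, Real.exp_log (by positivity)]
  have : (((k : ℝ) : ℝ) : ℂ) = algebraMap ℚ ℂ (k : ℚ) := by simp
  rw [this]
  exact isAlgebraic_algebraMap _

end Pool.Agent.Y925.PE
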