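import Pool.Agent.Y925.PE.Gen
import Pool.Agent.Y925.PE.LogVec

/-!
# Almost all integers `k`: polynomials in one transcendental number
-/

set_option autoImplicit false

namespace Pool.Agent.Y925.PE

open Module Finset
open Pool.Agent.H301R2.SSE (QB mem_QB Lt Lt_rep Lt_mul Lt_alg Lt_log Lt_one)

/-- the combinations `∑ y j * P j (t)` with polynomials `P j` of degree less than `D` -/
noncomputable def combP (t : ℂ) {m : ℕ} (y : Fin m → ℂ) (D : ℕ) :
    (Fin m → Polynomial.degreeLT QB D) →ₗ[QB] ℂ where
  toFun P := ∑ j, y j * Polynomial.aeval t (P j : Polynomial QB)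
  map_add' P Q := by
    rw [← Finset.sum_add_distrib]
    refine Finset.sum_congr rfl fun j _ => ?_
    rw [Pi.add_apply, Submodule.coe_add, map_add, mul_add]
  map_smul' c P := by
    rw [Finset.smul_sum]
    refine Finset.sum_congr rfl fun j _ => ?_
    rw [Pi.smul_apply, Submodule.coe_smul, map_smul, RingHom.id_apply, mul_smul_comm]

theorem combP_finrank (t : ℂ) {m : ℕ} (y : Fin m → ℂ) (D : ℕ) :
    finrank QB (LinearMap.range (combP t y D)) ≤ m * D := by
  refine (LinearMap.finrank_range_le _).trans ?_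
  rw [Module.finrank_pi_fintype]
  have h : finrank QB (Polynomial.degreeLT QB D) = D := by
    rw [(Polynomial.degreeLTEquiv QB D).finrank_eq]
    simp
  simp [h]

theorem transc_aeval {t : ℂ} (ht : Transcendental ℚ t) {P : Polynomial QB} (hP : 1 ≤ P.natDegree) :
    Transcendental ℚ (Polynomial.aeval t P) := by
  intro h
  apply ht
  have hne : P - Polynomial.C (⟨Polynomial.aeval t P, mem_QB.2 h⟩ : QB) ≠ 0 := by
    intro h0
    rw [sub_eq_zero] at h0
    rw [h0, Polynomial.natDegree_C] at hP
    omega
  have halg : IsAlgebraic QB t := by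
    refine ⟨_, hne, ?_⟩
    rw [map_sub, Polynomial.aeval_C]
    exact sub_self _
  haveI : Algebra.IsAlgebraic ℚ QB := algebraicClosure.isAlgebraic ℚ ℂ
  exact halg.restrictScalars ℚ

/-- if `P j (t) log (k j) + ∑ Q j i (t) y i` are linear forms in logarithms then the number of
integers `k j` with independent exponent vectors is bounded -/
theorem oneVar {t : ℂ} (ht : Transcendental ℚ t) {m : ℕ} (y : Fin (m + 1) → ℂ) (hy : y 0 = 1)
    (D x : ℕ) (Bad : ℕ → Prop)
    (hBad : ∀ k, Bad k → ∃ (P : Polynomial QB) (Q : Fin (m + 1) → Polynomial QB),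
      P.degree < D ∧ (∀ i, (Q i).degree < D) ∧ 1 ≤ P.natDegree ∧
      Polynomial.aeval t P * ((Real.log (k : ℝ) : ℝ) : ℂ) + ∑ i, y i * Polynomial.aeval t (Q i) ∈ Lt) :
    ∃ E : Finset ℕ, E.card ≤ (1 + Nat.log 2 x) ^ ((m + 1) * D * ((m + 1) * D - 1)) ∧
      ∀ k : ℕ, 1 ≤ k → k ≤ x → k ∉ E → ¬ Bad k := by
  classical
  refine ⟨(Finset.Icc 1 x).filter Bad, ?_, ?_⟩
  · refine card_le_of_indep x _ _ (fun k hk => Finset.mem_Icc.1 (Finset.mem_filter.1 hk).1) ?_
    intro N k hk hli
    have hk0 : ∀ j, k j ≠ 0 := fun j => by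
      have := (Finset.mem_Icc.1 (Finset.mem_filter.1 (hk j)).1).1
      omega
    choose P Q hP hQ hPt hA using fun j => hBad _ (Finset.mem_filter.1 (hk j)).2
    rcases Nat.eq_zero_or_pos N with hN | hN
    · omega
    have hD : 1 ≤ D := by
      by_contra hD
      have hD0 : D = 0 := by omega
      have h1 := hP ⟨0, hN⟩
      have h2 := hPt ⟨0, hN⟩
      rw [hD0] at h1
      have h3 : (P ⟨0, hN⟩) = 0 := by
        rw [← Polynomial.degree_eq_bot]
        exact Nat.WithBot.lt_zero_iff.1 (by exact_mod_cast h1)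
      rw [h3, Polynomial.natDegree_zero] at h2
      omega
    let V : Submodule QB ℂ := LinearMap.range (combP t y D)
    have hVr : finrank QB V ≤ (m + 1) * D := combP_finrank t y D
    have hmem : ∀ R : Fin (m + 1) → Polynomial QB, (∀ i, (R i).degree < D) →
        ∑ i, y i * Polynomial.aeval t (R i) ∈ V := by
      intro R hR
      exact ⟨fun i => ⟨R i, Polynomial.mem_degreeLT.2 (hR i)⟩, rfl⟩
    have hsingle : ∀ R : Polynomial QB, R.degree < D → Polynomial.aeval t R ∈ V := by
      intro R hR
      have h1 := hmem (fun i => if i = 0 then R else 0) (by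
        intro i
        split_ifs
        · exact hR
        · rw [Polynomial.degree_zero]
          exact WithBot.bot_lt_coe _)
      have h2 : ∑ i, y i * Polynomial.aeval t ((fun i => if i = 0 then R else 0) i : Polynomial QB) =
          Polynomial.aeval t R := by
        rw [Finset.sum_eq_single 0]
        · simp [hy]
        · intro b _ hb
          simp [hb]
        · simp
      rwa [h2] at h1
    have h1V : (1 : ℂ) ∈ V := by
      have := hsingle 1 (by
        rw [Polynomial.degree_one]
        exact_mod_cast hD)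
      simpa using this
    have h := gen V h1V (fun j => ((Real.log (k j : ℝ) : ℝ) : ℂ)) (fun j => log_alg (hk0 j))
      (log_indep k hk0 hli) (fun j => Polynomial.aeval t (P j))
      (fun j => ∑ i, y i * Polynomial.aeval t (Q j i))
      (fun j => hsingle _ (hP j)) (fun j => hmem _ (hQ j))
      (fun j => transc_aeval ht (hPt j)) (fun j => hA j)
    exact h.trans (Nat.mul_le_mul hVr (by omega))
  · intro k hk1 hkx hkE hb
    exact hkE (Finset.mem_filter.2 ⟨Finset.mem_Icc.2 ⟨hk1, hkx⟩, hb⟩)

end Pool.Agent.Y925.PE
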